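import Pool.Agent.EGF.StmtsR

/-!
# Squad EGF, block R, row PBB: typical vertices of `B` (helper9)
-/

set_option autoImplicit false

open Finset

namespace Pool.Agent.EGF.H9

theorem card_filter_prod {X Y : Type} [DecidableEq X] [DecidableEq Y] (A : Finset X)
    (B : Finset Y) (P : X → Y → Prop) [∀ x y, Decidable (P x y)] :
    ((A ×ˢ B).filter fun p => P p.1 p.2).card = ∑ y ∈ B, (A.filter fun x => P x y).card := by
  rw [card_filter, sum_product_right]
  exact sum_congr rfl fun y _ => (card_filter _ _).symm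

theorem pbb (hE : EntStmt) : PbbStmt := by
  classical
  intro V _ k c U A B C1 e ρ q lam δ hA hB hρ hρ4 hρδ hq hlam hR
  have hApos : (0:ℝ) < A.card := by exact_mod_cast hA.card_pos
  have hBpos : (0:ℝ) < B.card := by exact_mod_cast hB.card_pos
  set B1 := B.filter fun y => ((A.filter fun x => c x y ∉ C1).card : ℝ) ≤ lam * A.card with hB1
  have hAself : ρ * (A.card : ℝ) ≤ A.card := by nlinarith
  -- few exceptional vertices
  have hexc : ((B.filter fun y => ¬ ((A.filter fun x => c x y ∉ C1).card : ℝ) ≤ lam * A.card).card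
      : ℝ) < ρ * B.card := by
    by_contra hcon
    rw [not_lt] at hcon
    set B' := B.filter fun y => ¬ ((A.filter fun x => c x y ∉ C1).card : ℝ) ≤ lam * A.card with hB'
    have h1 := (hR A (subset_refl _) B' (filter_subset _ _) hAself hcon).2
    have hne : B'.Nonempty := by
      rw [← card_pos]
      have : (0:ℝ) < B'.card := lt_of_lt_of_le (by positivity) hcon
      exact_mod_cast this
    have h2 : (((ex c C1 A B').card : ℕ) : ℝ) = ∑ y ∈ B', ((A.filter fun x => c x y ∉ C1).card : ℝ)
        := by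
      unfold ex
      rw [card_filter_prod A B' (fun x y => c x y ∉ C1)]
      push_cast
      rfl
    have h3 : ∑ _y ∈ B', (lam * (A.card : ℝ)) <
        ∑ y ∈ B', ((A.filter fun x => c x y ∉ C1).card : ℝ) := by
      apply sum_lt_sum_of_nonempty hne
      intro y hy
      exact not_le.1 (mem_filter.1 hy).2
    rw [sum_const, nsmul_eq_mul] at h3
    rw [h2] at h1
    linarith
  have hB1B : (B1.card : ℝ) + ((B.filter fun y =>
      ¬ ((A.filter fun x => c x y ∉ C1).card : ℝ) ≤ lam * A.card).card : ℝ) = B.card := by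
    have := card_filter_add_card_filter_not (s := B)
      (fun y => ((A.filter fun x => c x y ∉ C1).card : ℝ) ≤ lam * A.card)
    exact_mod_cast this
  have hB1half : (B.card : ℝ) ≤ 2 * B1.card := by nlinarith
  have hB1pos : (0:ℝ) < B1.card := by linarith
  have hB1ne : B1.Nonempty := by
    rw [← card_pos]
    exact_mod_cast hB1pos
  -- the family
  set Ai : Fin k → Finset V := fun i => A.filter fun x => i ∈ star c U x with hAi
  set Γ := (pal c U).filter fun i => δ * A.card ≤ ((Ai i).card : ℝ) with hΓ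
  set S : Fin k → Finset V := fun i => B.filter fun y => q * (Ai i).card ≤
    ((A.filter fun x => c x y = e ∧ i ∈ star c U x).card : ℝ) with hS
  have hSi : ∀ i ∈ Γ, ((B.filter fun y => ¬ q * (Ai i).card ≤
      ((A.filter fun x => c x y = e ∧ i ∈ star c U x).card : ℝ)).card : ℝ) < ρ * B.card := by
    intro i hi
    have hi2 := (mem_filter.1 hi).2
    by_contra hcon
    rw [not_lt] at hcon
    set B' := B.filter fun y => ¬ q * (Ai i).card ≤
      ((A.filter fun x => c x y = e ∧ i ∈ star c U x).card : ℝ) with hB'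
    have hne : B'.Nonempty := by
      rw [← card_pos]
      have : (0:ℝ) < B'.card := lt_of_lt_of_le (by positivity) hcon
      exact_mod_cast this
    have hA' : ρ * (A.card : ℝ) ≤ (Ai i).card :=
      le_trans (mul_le_mul_of_nonneg_right hρδ hApos.le) hi2
    have h1 := (hR (Ai i) (filter_subset _ _) B' (filter_subset _ _) hA' hcon).1
    rw [card_filter_prod (Ai i) B' (fun x y => c x y = e)] at h1
    push_cast at h1
    have h3 : ∑ y ∈ B', (((Ai i).filter fun x => c x y = e).card : ℝ) <
        ∑ _y ∈ B', (q * ((Ai i).card : ℝ)) := by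
      apply sum_lt_sum_of_nonempty hne
      intro y hy
      have h4 := not_le.1 (mem_filter.1 hy).2
      have h5 : (Ai i).filter (fun x => c x y = e) =
          A.filter fun x => c x y = e ∧ i ∈ star c U x := by
        rw [hAi]
        ext x
        simp only [mem_filter]
        tauto
      rw [h5]
      exact h4
    rw [sum_const, nsmul_eq_mul] at h3
    nlinarith
  have hcap : ∀ i ∈ Γ, (1 - 2 * ρ) * (B1.card : ℝ) ≤ ((B1 ∩ S i).card : ℝ) := by
    intro i hi
    have h1 := hSi i hi
    have h2 : B1 \ S i ⊆ B.filter fun y => ¬ q * (Ai i).card ≤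
        ((A.filter fun x => c x y = e ∧ i ∈ star c U x).card : ℝ) := by
      intro y hy
      rw [mem_sdiff] at hy
      have hyB : y ∈ B := (mem_filter.1 hy.1).1
      rw [mem_filter]
      refine ⟨hyB, fun hcon => hy.2 ?_⟩
      rw [hS]
      exact mem_filter.2 ⟨hyB, hcon⟩
    have h3 : ((B1 \ S i).card : ℝ) ≤ ρ * B.card := by
      have : ((B1 \ S i).card : ℝ) ≤ ((B.filter fun y => ¬ q * (Ai i).card ≤
        ((A.filter fun x => c x y = e ∧ i ∈ star c U x).card : ℝ)).card : ℝ) := by
        exact_mod_cast card_le_card h2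
      linarith
    have h4 : ((B1 \ S i).card : ℝ) + (B1 ∩ S i).card = B1.card := by
      have := card_sdiff_add_card_inter B1 (S i)
      exact_mod_cast this
    nlinarith
  obtain ⟨Z, hZ, W, hW, hWne, hZc, hWS, hWc⟩ := hE V (Fin k) Γ B1 S (2 * ρ) (by linarith) hB1ne
    hcap
  have hΓpal : (Γ.card : ℝ) ≤ (pal c U).card := by
    exact_mod_cast card_le_card (filter_subset _ _)
  have hpal0 : (0:ℝ) ≤ (pal c U).card := Nat.cast_nonneg _
  have hΓ0 : (0:ℝ) ≤ Γ.card := Nat.cast_nonneg _
  refine ⟨W, hW.trans (filter_subset _ _), Z, hZ.trans (filter_subset _ _), hWne, ?_, ?_, ?_, ?_⟩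
  · calc (Z.card : ℝ) ≤ 2 * (2 * ρ) * Γ.card := hZc
      _ ≤ 2 * (2 * ρ) * (pal c U).card := by
          apply mul_le_mul_of_nonneg_left hΓpal
          positivity
      _ = _ := by ring
  · have hlog : Real.log B.card - Real.log 2 ≤ Real.log B1.card := by
      rw [← Real.log_div hBpos.ne' (by norm_num)]
      apply Real.log_le_log (by positivity)
      linarith
    have hlog2 : Real.log 2 ≤ 1 := by
      have := Real.log_two_lt_d9
      linarith
    have hsq : √(2 * ρ) = √2 * √ρ := Real.sqrt_mul (by norm_num) ρ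
    have hs2 : √2 ≤ 1.6 := by
      rw [show (1.6:ℝ) = √(1.6 ^ 2) by rw [Real.sqrt_sq (by norm_num)]]
      exact Real.sqrt_le_sqrt (by norm_num)
    have hsρ : 0 ≤ √ρ := Real.sqrt_nonneg _
    have h5 : 3 * √(2 * ρ) * (Γ.card : ℝ) ≤ 5 * √ρ * (pal c U).card := by
      rw [hsq]
      calc 3 * (√2 * √ρ) * (Γ.card : ℝ) ≤ 3 * (√2 * √ρ) * (pal c U).card := by
            apply mul_le_mul_of_nonneg_left hΓpal
            positivity
        _ ≤ 5 * √ρ * (pal c U).card := by
            apply mul_le_mul_of_nonneg_right _ hpal0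
            nlinarith [mul_le_mul_of_nonneg_right hs2 hsρ]
    linarith
  · intro y hy
    exact (mem_filter.1 (hW hy)).2
  · intro i hi hδ y hy
    rw [mem_sdiff] at hi
    have hiΓ : i ∈ Γ := by
      rw [hΓ, mem_filter]
      exact ⟨hi.1, hδ⟩
    have h1 := hWS i (mem_sdiff.2 ⟨hiΓ, hi.2⟩) hy
    rw [hS] at h1
    have h2 := (mem_filter.1 h1).2
    calc q * (δ * A.card) ≤ q * (Ai i).card := mul_le_mul_of_nonneg_left hδ hq.le
      _ ≤ _ := h2

end Pool.Agent.EGF.H9
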