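import Pool.Agent.EGF.StmtsQ

/-!
# Squad EGF, row SHA: a large set of colours is seen by nearly all vertices (helper9)
-/

set_option autoImplicit false

open Finset

namespace Pool.Agent.EGF.H9

/-- the number of the small subsets of a finite set -/
theorem small_subsets {I : Type} [DecidableEq I] (Γ : Finset I) (κ : ℝ) (hκ : 0 < κ) :
    (((Γ.powerset.filter fun Z => ((Z.card : ℝ)) ≤ 2 * κ * Γ.card).card : ℕ) : ℝ) ≤
      Real.exp (3 * √κ * Γ.card) := by
  set T := Γ.powerset.filter fun Z => ((Z.card : ℝ)) ≤ 2 * κ * Γ.card with hT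
  have hsq : 0 < √κ := Real.sqrt_pos.2 hκ
  have hlam : (1 / √κ) * κ = √κ := by
    have : κ = √κ * √κ := (Real.mul_self_sqrt hκ.le).symm
    nth_rewrite 2 [this]
    field_simp
  have hexp : Real.exp (-(1 / √κ)) ≤ √κ := by
    have h12 : 1 / √κ ≤ Real.exp (1 / √κ) := by
      have := Real.add_one_le_exp (1 / √κ)
      linarith
    rw [Real.exp_neg]
    have h13 : 0 < 1 / √κ := by positivity
    calc (Real.exp (1 / √κ))⁻¹ ≤ (1 / √κ)⁻¹ := inv_anti₀ h13 h12
      _ = √κ := by simp
  calc (T.card : ℝ) = ∑ _Z ∈ T, (1:ℝ) := by simp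
    _ ≤ ∑ Z ∈ T, Real.exp ((1 / √κ) * (2 * κ * Γ.card)) *
          (Real.exp (-(1 / √κ)) ^ Z.card * (1:ℝ) ^ (Γ.card - Z.card)) := by
        apply sum_le_sum
        intro Z hZ
        have h14 := (mem_filter.1 hZ).2
        rw [one_pow, mul_one, ← Real.exp_nat_mul, ← Real.exp_add]
        apply Real.one_le_exp
        have h15 : 0 < 1 / √κ := by positivity
        nlinarith
    _ ≤ ∑ Z ∈ Γ.powerset, Real.exp ((1 / √κ) * (2 * κ * Γ.card)) *
          (Real.exp (-(1 / √κ)) ^ Z.card * (1:ℝ) ^ (Γ.card - Z.card)) :=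
        sum_le_sum_of_subset_of_nonneg (filter_subset _ _) fun _ _ _ => by positivity
    _ = Real.exp ((1 / √κ) * (2 * κ * Γ.card)) * (Real.exp (-(1 / √κ)) + 1) ^ Γ.card := by
        rw [← mul_sum, sum_pow_mul_eq_add_pow]
    _ ≤ Real.exp ((1 / √κ) * (2 * κ * Γ.card)) * Real.exp (√κ) ^ Γ.card := by
        apply mul_le_mul_of_nonneg_left _ (Real.exp_pos _).le
        apply pow_le_pow_left₀ (by positivity)
        calc Real.exp (-(1 / √κ)) + 1 ≤ √κ + 1 := by linarith
          _ ≤ _ := Real.add_one_le_exp _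
    _ = Real.exp (3 * √κ * Γ.card) := by
        rw [← Real.exp_nat_mul, ← Real.exp_add]
        congr 1
        have : (1 / √κ) * (2 * κ * Γ.card) = 2 * ((1 / √κ) * κ) * Γ.card := by ring
        rw [this, hlam]
        ring

variable {V : Type} [DecidableEq V] {k : ℕ}

theorem star_mono (c : V → V → Fin k) {W U : Finset V} (h : W ⊆ U) (x : V) :
    star c W x ⊆ star c U x := by
  unfold star
  apply image_subset_image
  intro z hz
  rw [mem_filter] at hz ⊢
  exact ⟨h hz.1, hz.2⟩

theorem smax_mono (c : V → V → Fin k) {W U : Finset V} (h : W ⊆ U) : smax c W ≤ smax c U := by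
  unfold smax
  apply Finset.sup_le
  intro x hx
  calc (star c W x).card ≤ (star c U x).card := card_le_card (star_mono c h x)
    _ ≤ _ := Finset.le_sup (f := fun x => (star c U x).card) (h hx)

theorem pal_mono (c : V → V → Fin k) {W U : Finset V} (h : W ⊆ U) : pal c W ⊆ pal c U := by
  unfold pal
  apply image_subset_image
  intro p hp
  rw [mem_filter, mem_product] at hp ⊢
  exact ⟨⟨h hp.1.1, h hp.1.2⟩, hp.2⟩

theorem sha : ShaStmt := by
  classical
  intro V _ k c U θ κ Q hU hθ hκ hκ8 hκθ hQ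
  obtain ⟨hne, hrec⟩ := hU
  have hUpos : (0:ℝ) < U.card := by exact_mod_cast hne.card_pos
  set D : Finset (Fin k) → Finset V := fun Z => U.filter fun y => Q ∩ star c U y = Z with hD
  set T := Q.powerset.filter fun Z => ((Z.card : ℝ)) ≤ 2 * κ * Q.card with hT
  have hDle : ∀ Z ∈ T, ((D Z).card : ℝ) ≤ U.card * Real.exp (-(3 / 4 * θ * Q.card)) := by
    intro Z hZ
    rw [hT, mem_filter, mem_powerset] at hZ
    rcases (D Z).eq_empty_or_nonempty with h0 | h0
    · rw [h0]
      simp only [card_empty, Nat.cast_zero]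
      positivity
    · have hDU : D Z ⊆ U := filter_subset _ _
      have h1 := hrec (D Z) hDU h0
      have hs : (smax c (D Z) : ℝ) ≤ smax c U := by exact_mod_cast smax_mono c hDU
      have hp : pal c (D Z) ⊆ pal c U \ (Q \ Z) := by
        intro i hi
        rw [mem_sdiff]
        refine ⟨pal_mono c hDU hi, ?_⟩
        intro hiQ
        rw [mem_sdiff] at hiQ
        apply hiQ.2
        unfold pal at hi
        rw [mem_image] at hi
        obtain ⟨p, hp, hpi⟩ := hi
        rw [mem_filter, mem_product] at hp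
        have hy := (mem_filter.1 hp.1.1)
        have hz := (mem_filter.1 hp.1.2)
        rw [← hy.2, mem_inter]
        refine ⟨hiQ.1, ?_⟩
        unfold star
        rw [mem_image]
        exact ⟨p.2, mem_filter.2 ⟨hz.1, fun h => hp.2 h.symm⟩, hpi⟩
      have hc : (pal c (D Z)).card + (Q \ Z).card ≤ (pal c U).card := by
        have h2 := card_le_card hp
        have h3 : (Q \ Z) ⊆ pal c U := sdiff_subset.trans hQ
        rw [card_sdiff_of_subset h3] at h2
        have h4 := card_le_card h3
        omega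
      have hc2 : (Q \ Z).card + Z.card = Q.card := card_sdiff_add_card_eq_card hZ.1
      have hc' : ((pal c (D Z)).card : ℝ) + (Q \ Z).card ≤ (pal c U).card := by exact_mod_cast hc
      have hc2' : ((Q \ Z).card : ℝ) + Z.card = Q.card := by exact_mod_cast hc2
      have hQ0 : (0:ℝ) ≤ Q.card := Nat.cast_nonneg _
      have hZ4 : (Z.card : ℝ) ≤ Q.card / 4 := by
        have := hZ.2
        nlinarith
      have hDpos : (0:ℝ) < (D Z).card := by exact_mod_cast h0.card_pos
      have h5 : Real.log (D Z).card ≤ Real.log U.card - 3 / 4 * θ * Q.card := by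
        have h6 : 3 / 4 * (Q.card : ℝ) ≤ (pal c U).card - (pal c (D Z)).card := by linarith
        nlinarith [mul_le_mul_of_nonneg_left h6 hθ.le, mul_le_mul_of_nonneg_left hs hθ.le]
      calc ((D Z).card : ℝ) = Real.exp (Real.log (D Z).card) := (Real.exp_log hDpos).symm
        _ ≤ Real.exp (Real.log U.card - 3 / 4 * θ * Q.card) := Real.exp_le_exp.2 h5
        _ = _ := by rw [sub_eq_add_neg, Real.exp_add, Real.exp_log hUpos]
  have hsub : (U.filter fun y => ((Q ∩ star c U y).card : ℝ) ≤ 2 * κ * Q.card) ⊆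
      T.biUnion D := by
    intro y hy
    rw [mem_filter] at hy
    rw [mem_biUnion]
    refine ⟨Q ∩ star c U y, ?_, ?_⟩
    · rw [hT, mem_filter, mem_powerset]
      exact ⟨inter_subset_left, hy.2⟩
    · rw [hD]
      exact mem_filter.2 ⟨hy.1, rfl⟩
  have hTc := small_subsets Q κ hκ
  rw [← hT] at hTc
  calc ((U.filter fun y => ((Q ∩ star c U y).card : ℝ) ≤ 2 * κ * Q.card).card : ℝ)
      ≤ ((T.biUnion D).card : ℝ) := by exact_mod_cast card_le_card hsub
    _ ≤ ∑ Z ∈ T, ((D Z).card : ℝ) := by exact_mod_cast card_biUnion_le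
    _ ≤ ∑ _Z ∈ T, U.card * Real.exp (-(3 / 4 * θ * Q.card)) := sum_le_sum hDle
    _ = T.card * (U.card * Real.exp (-(3 / 4 * θ * Q.card))) := by
        rw [sum_const, nsmul_eq_mul]
    _ ≤ Real.exp (3 * √κ * Q.card) * (U.card * Real.exp (-(3 / 4 * θ * Q.card))) := by
        apply mul_le_mul_of_nonneg_right hTc
        positivity
    _ = U.card * Real.exp (3 * √κ * Q.card + -(3 / 4 * θ * Q.card)) := by
        rw [Real.exp_add]; ring
    _ ≤ _ := by
        apply mul_le_mul_of_nonneg_left _ hUpos.le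
        apply Real.exp_le_exp.2
        have hQ0 : (0:ℝ) ≤ Q.card := Nat.cast_nonneg _
        nlinarith [mul_le_mul_of_nonneg_right hκθ hQ0]

end Pool.Agent.EGF.H9
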